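import Mathlib

/-!
# Finitely many Euler factors
-/

set_option autoImplicit false

namespace Pool.Agent.Helper16.OM

theorem cpow_le_one {p : ℕ} (hp : p.Prime) {s : ℂ} (hs : s.re ≤ 0) : ‖(p : ℂ) ^ s‖ ≤ 1 := by
  rw [Complex.norm_natCast_cpow_of_pos hp.pos]
  exact Real.rpow_le_one_of_one_le_of_nonpos (by exact_mod_cast hp.one_le) hs

theorem euler_bad (S : Finset ℕ) (hS : ∀ p ∈ S, p.Prime) (b c : ℕ → ℝ) :
    Differentiable ℂ (fun s : ℂ => ∏ p ∈ S, (1 - (b p : ℂ) * (p : ℂ) ^ (-s) +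
      (c p : ℂ) * (p : ℂ) ^ (1 - 2 * s))) ∧
    ∃ M : ℝ, 1 ≤ M ∧ ∀ s : ℂ, 1 ≤ s.re → ‖∏ p ∈ S, (1 - (b p : ℂ) * (p : ℂ) ^ (-s) +
      (c p : ℂ) * (p : ℂ) ^ (1 - 2 * s))‖ ≤ M := by
  constructor
  · have h : ∀ p ∈ S, Differentiable ℂ (fun s : ℂ => 1 - (b p : ℂ) * (p : ℂ) ^ (-s) +
        (c p : ℂ) * (p : ℂ) ^ (1 - 2 * s)) := by
      intro p hp
      have h0 : (p : ℂ) ≠ 0 := by exact_mod_cast (hS p hp).ne_zero
      have h1 : Differentiable ℂ (fun s : ℂ => (p : ℂ) ^ (-s)) :=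
        differentiable_id.neg.const_cpow (Or.inl h0)
      have h2 : Differentiable ℂ (fun s : ℂ => (p : ℂ) ^ (1 - 2 * s)) :=
        ((differentiable_const 1).sub ((differentiable_const 2).mul differentiable_id)).const_cpow (Or.inl h0)
      exact ((differentiable_const 1).sub ((differentiable_const _).mul h1)).add
        ((differentiable_const _).mul h2)
    intro s
    exact DifferentiableAt.fun_finsetProd fun p hp => h p hp s
  · refine ⟨∏ p ∈ S, (1 + |b p| + |c p|), ?_, fun s hs => ?_⟩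
    · have h1 : ∏ _p ∈ S, (1 : ℝ) ≤ ∏ p ∈ S, (1 + |b p| + |c p|) :=
        Finset.prod_le_prod (fun _ _ => zero_le_one) fun p _ => by
          have h1 := abs_nonneg (b p)
          have h2 := abs_nonneg (c p)
          linarith
      rwa [Finset.prod_const_one] at h1
    · rw [norm_prod]
      refine Finset.prod_le_prod (fun p _ => norm_nonneg _) fun p hp => ?_
      have h1 : ‖(p : ℂ) ^ (-s)‖ ≤ 1 := cpow_le_one (hS p hp) (by rw [Complex.neg_re]; linarith)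
      have h2 : ‖(p : ℂ) ^ (1 - 2 * s)‖ ≤ 1 := by
        refine cpow_le_one (hS p hp) ?_
        rw [Complex.sub_re, Complex.mul_re]
        simp only [Complex.one_re, Complex.re_ofNat, Complex.im_ofNat, zero_mul, sub_zero]
        linarith
      have e1 : ‖(b p : ℂ)‖ = |b p| := by
        rw [Complex.norm_real, Real.norm_eq_abs]
      have e2 : ‖(c p : ℂ)‖ = |c p| := by
        rw [Complex.norm_real, Real.norm_eq_abs]
      calc ‖1 - (b p : ℂ) * (p : ℂ) ^ (-s) + (c p : ℂ) * (p : ℂ) ^ (1 - 2 * s)‖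
          ≤ ‖(1 : ℂ) - (b p : ℂ) * (p : ℂ) ^ (-s)‖ + ‖(c p : ℂ) * (p : ℂ) ^ (1 - 2 * s)‖ := norm_add_le _ _
        _ ≤ (‖(1 : ℂ)‖ + ‖(b p : ℂ) * (p : ℂ) ^ (-s)‖) + ‖(c p : ℂ) * (p : ℂ) ^ (1 - 2 * s)‖ :=
            add_le_add (norm_sub_le _ _) le_rfl
        _ ≤ 1 + |b p| + |c p| := by
            rw [norm_mul, norm_mul, e1, e2, norm_one]
            have k1 := mul_le_mul_of_nonneg_left h1 (abs_nonneg (b p))
            have k2 := mul_le_mul_of_nonneg_left h2 (abs_nonneg (c p))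
            linarith

end Pool.Agent.Helper16.OM
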