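import Mathlib

/-!
# A lower bound for a circle average
-/

set_option autoImplicit false

namespace Pool.Agent.Helper16.OM

open MeasureTheory

theorem log_sin_periodic : Function.Periodic (fun x : ℝ => Real.log (Real.sin x)) Real.pi := by
  intro x
  simp only [Real.sin_add_pi, Real.log_neg_eq_log]

theorem integral_log_cos_two_pi :
    ∫ x in (0 : ℝ)..2 * Real.pi, Real.log (Real.cos x) = -(2 * Real.pi * Real.log 2) := by
  have h1 : ∫ x in (0 : ℝ)..2 * Real.pi, Real.log (Real.cos x) =
      ∫ x in (0 : ℝ)..2 * Real.pi, (fun y => Real.log (Real.sin y)) (x + Real.pi / 2) := by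
    refine intervalIntegral.integral_congr fun x _ => ?_
    simp only [Real.sin_add_pi_div_two]
  have hp2 : Function.Periodic (fun x : ℝ => Real.log (Real.sin x)) (2 * Real.pi) := by
    intro x
    have e : x + 2 * Real.pi = x + Real.pi + Real.pi := by ring
    show Real.log (Real.sin (x + 2 * Real.pi)) = Real.log (Real.sin x)
    rw [e]
    exact (log_sin_periodic (x + Real.pi)).trans (log_sin_periodic x)
  rw [h1, intervalIntegral.integral_comp_add_right (fun y => Real.log (Real.sin y)) (Real.pi / 2)]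
  have e1 : (0 : ℝ) + Real.pi / 2 = Real.pi / 2 := by ring
  have e2 : 2 * Real.pi + Real.pi / 2 = Real.pi / 2 + 2 * Real.pi := by ring
  rw [e1, e2, hp2.intervalIntegral_add_eq (Real.pi / 2) 0]
  have e3 : (0 : ℝ) + 2 * Real.pi = Real.pi + Real.pi := by ring
  have hi : ∀ a b : ℝ, IntervalIntegrable (fun x : ℝ => Real.log (Real.sin x)) volume a b := fun a b =>
    intervalIntegrable_log_sin
  rw [e3, ← intervalIntegral.integral_add_adjacent_intervals (hi 0 Real.pi) (hi Real.pi (Real.pi + Real.pi)),
    log_sin_periodic.intervalIntegral_add_eq Real.pi 0, zero_add, integral_log_sin_zero_pi]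
  ring

theorem ae_cos_ne_zero : ∀ᵐ θ : ℝ, Real.cos θ ≠ 0 := by
  have hc : Set.Countable {θ : ℝ | Real.cos θ = 0} := by
    have : {θ : ℝ | Real.cos θ = 0} ⊆ Set.range fun k : ℤ => (2 * (k : ℝ) + 1) * Real.pi / 2 := by
      intro θ hθ
      obtain ⟨k, hk⟩ := Real.cos_eq_zero_iff.1 hθ
      exact ⟨k, hk.symm⟩
    exact (Set.countable_range _).mono this
  exact (hc.ae_notMem volume).mono fun θ h => h

/-- **the lower bound** -/
theorem circle_lower (R : ℝ) (hR : 1 ≤ R) (f : ℂ → ℝ) (hf : CircleIntegrable f 0 R) (A B : ℝ) (_hB : 0 ≤ B)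
    (h : ∀ w : ℂ, ‖w‖ = R → w.re ≠ 0 →
      w.re ^ 2 / R * Real.log R - A * R - B * R * (Real.log R - Real.log |w.re|) ≤ f w) :
    R / 2 * Real.log R - A * R - B * R * Real.log 2 ≤ Real.circleAverage f 0 R := by
  have hR0 : 0 < R := by linarith
  have hpi : 0 < 2 * Real.pi := by positivity
  have hcos : IntervalIntegrable (fun x : ℝ => Real.log (Real.cos x)) volume 0 (2 * Real.pi) :=
    intervalIntegrable_log_cos
  have hsq : IntervalIntegrable (fun x : ℝ => Real.cos x ^ 2) volume 0 (2 * Real.pi) :=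
    (Real.continuous_cos.pow 2).intervalIntegrable _ _
  have hconst : IntervalIntegrable (fun _ : ℝ => A * R) volume 0 (2 * Real.pi) := intervalIntegrable_const
  have hg : IntervalIntegrable (fun θ : ℝ => (R * Real.log R) * Real.cos θ ^ 2 - A * R +
      (B * R) * Real.log (Real.cos θ)) volume 0 (2 * Real.pi) :=
    ((hsq.const_mul _).sub hconst).add (hcos.const_mul _)
  have key : (∫ θ in (0 : ℝ)..2 * Real.pi, ((R * Real.log R) * Real.cos θ ^ 2 - A * R +
      (B * R) * Real.log (Real.cos θ))) ≤ ∫ θ in (0 : ℝ)..2 * Real.pi, f (circleMap 0 R θ) := by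
    refine intervalIntegral.integral_mono_ae hpi.le hg hf ?_
    filter_upwards [ae_cos_ne_zero] with θ hθ
    have hre : (circleMap 0 R θ).re = R * Real.cos θ := by
      rw [circleMap_zero]
      rw [Complex.re_ofReal_mul, Complex.exp_ofReal_mul_I_re]
    have hn : ‖circleMap 0 R θ‖ = R := by
      rw [norm_circleMap_zero, abs_of_pos hR0]
    have hne : (circleMap 0 R θ).re ≠ 0 := by
      rw [hre]
      exact mul_ne_zero hR0.ne' hθ
    have h1 := h _ hn hne
    rw [hre, abs_mul, abs_of_pos hR0, Real.log_mul hR0.ne' (abs_ne_zero.2 hθ), Real.log_abs] at h1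
    refine le_trans (le_of_eq ?_) h1
    field_simp
    ring
  have hval : (∫ θ in (0 : ℝ)..2 * Real.pi, ((R * Real.log R) * Real.cos θ ^ 2 - A * R +
      (B * R) * Real.log (Real.cos θ))) = (2 * Real.pi) * (R / 2 * Real.log R - A * R - B * R * Real.log 2) := by
    have i1 : (∫ θ in (0 : ℝ)..2 * Real.pi, (R * Real.log R) * Real.cos θ ^ 2) =
        (R * Real.log R) * Real.pi := by
      rw [intervalIntegral.integral_const_mul, integral_cos_sq]
      simp only [Real.sin_two_pi, Real.sin_zero, Real.cos_two_pi]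
      ring
    have i2 : (∫ _θ in (0 : ℝ)..2 * Real.pi, A * R) = 2 * Real.pi * (A * R) := by
      rw [intervalIntegral.integral_const, smul_eq_mul]
      ring
    have i3 : (∫ θ in (0 : ℝ)..2 * Real.pi, (B * R) * Real.log (Real.cos θ)) =
        (B * R) * (-(2 * Real.pi * Real.log 2)) := by
      rw [intervalIntegral.integral_const_mul, integral_log_cos_two_pi]
    rw [intervalIntegral.integral_add ((hsq.const_mul _).sub hconst) (hcos.const_mul _),
      intervalIntegral.integral_sub (hsq.const_mul _) hconst, i1, i2, i3]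
    ring
  rw [hval] at key
  rw [Real.circleAverage_def, smul_eq_mul]
  rw [inv_mul_eq_div, le_div_iff₀ hpi]
  linarith

end Pool.Agent.Helper16.OM
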